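import Mathlib

/-!
# A connected self 2-distance graph with cut vertices

The graph `Gam` on `Z/13` with thirteen edges is connected, has a cut vertex, and the shift
`x ↦ x + 1` is an isomorphism from its 2-distance graph onto it.
-/

namespace Pool.Agent.Results.MP_9880a5_co.CutVertexOnThirteenPoints

/-- The 2-distance graph: two distinct vertices are adjacent iff their distance is two. -/
def twoDist {V : Type*} (G : SimpleGraph V) : SimpleGraph V where
  Adj x y := x ≠ y ∧ G.dist x y = 2
  symm := ⟨fun x y h => ⟨h.1.symm, by rw [SimpleGraph.dist_comm]; exact h.2⟩⟩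
  loopless := ⟨fun x h => h.1 rfl⟩

/-- `G` is a self 2-distance graph. -/
def SelfTwoDist {V : Type*} (G : SimpleGraph V) : Prop := Nonempty (twoDist G ≃g G)

/-- `G` is 2-connected: at least three vertices, and it remains connected after deleting any
one vertex. -/
def TwoConnected {V : Type*} [Fintype V] (G : SimpleGraph V) : Prop :=
  3 ≤ Fintype.card V ∧ ∀ v : V, (G.induce {w | w ≠ v}).Connected

/-- The list of edges. -/
def edges : List (Fin 13 × Fin 13) :=
  [(0, 1), (0, 6), (1, 12), (2, 7), (2, 9), (2, 11), (3, 4), (3, 7), (5, 8), (6, 11), (8, 10),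
    (8, 12), (10, 12)]

/-- The graph. -/
def Gam : SimpleGraph (Fin 13) where
  Adj x y := (x, y) ∈ edges ∨ (y, x) ∈ edges
  symm := ⟨fun x y h => h.symm⟩
  loopless := ⟨by decide⟩

instance : DecidableRel Gam.Adj := fun x y => by unfold Gam; infer_instance

theorem conn : Gam.Connected := by
  have h : ∀ v, Gam.Reachable v 0 := by
    have step : ∀ v w : Fin 13, Gam.Adj v w → Gam.Reachable w 0 → Gam.Reachable v 0 :=
      fun v w a b => a.reachable.trans b
    have h0 : Gam.Reachable 0 0 := SimpleGraph.Reachable.refl _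
    have h1 := step 1 0 (by decide) h0
    have h6 := step 6 0 (by decide) h0
    have h11 := step 11 6 (by decide) h6
    have h2 := step 2 11 (by decide) h11
    have h7 := step 7 2 (by decide) h2
    have h9 := step 9 2 (by decide) h2
    have h3 := step 3 7 (by decide) h7
    have h4 := step 4 3 (by decide) h3
    have h12 := step 12 1 (by decide) h1
    have h8 := step 8 12 (by decide) h12
    have h10 := step 10 12 (by decide) h12
    have h5 := step 5 8 (by decide) h8
    intro v
    fin_cases v
    · exact h0
    · exact h1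
    · exact h2
    · exact h3
    · exact h4
    · exact h5
    · exact h6
    · exact h7
    · exact h8
    · exact h9
    · exact h10
    · exact h11
    · exact h12
  have : Nonempty (Fin 13) := ⟨0⟩
  exact ⟨fun v w => (h v).trans (h w).symm⟩

theorem dist_two {V : Type*} (G : SimpleGraph V) (x y : V) :
    (x ≠ y ∧ G.dist x y = 2) ↔ (x ≠ y ∧ ¬ G.Adj x y ∧ ∃ z, G.Adj x z ∧ G.Adj z y) := by
  constructor
  · rintro ⟨hne, hd⟩
    refine ⟨hne, ?_, ?_⟩
    · intro ha
      have := SimpleGraph.dist_eq_one_iff_adj.2 ha
      omega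
    · have hr : G.Reachable x y := by
        by_contra hr
        rw [SimpleGraph.dist_eq_zero_of_not_reachable hr] at hd
        omega
      obtain ⟨p, hp⟩ := hr.exists_walk_length_eq_dist
      rw [hd] at hp
      match p, hp with
      | .cons h1 (.cons h2 .nil), _ => exact ⟨_, h1, h2⟩
  · rintro ⟨hne, hna, z, h1, h2⟩
    refine ⟨hne, ?_⟩
    have hle : G.dist x y ≤ 2 := by
      have := SimpleGraph.dist_le (SimpleGraph.Walk.cons h1 (.cons h2 .nil))
      simpa using this
    have hr : G.Reachable x y := h1.reachable.trans h2.reachable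
    have hpos : 0 < G.dist x y := hr.pos_dist_of_ne hne
    have hne1 : G.dist x y ≠ 1 := fun h => hna (SimpleGraph.dist_eq_one_iff_adj.1 h)
    omega

theorem shift : ∀ x y : Fin 13, Gam.Adj (x + 1) (y + 1) ↔
    (x ≠ y ∧ ¬ Gam.Adj x y ∧ ∃ z, Gam.Adj x z ∧ Gam.Adj z y) := by
  decide +kernel

theorem self : SelfTwoDist Gam :=
  ⟨{ toEquiv := Equiv.addRight 1
     map_rel_iff' := by
      intro x y
      change Gam.Adj (x + 1) (y + 1) ↔ (x ≠ y ∧ Gam.dist x y = 2)
      rw [shift, dist_two] }⟩

/-- Deleting `3` isolates the leaf `4`. -/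
theorem cut : ¬ (Gam.induce {w | w ≠ (3 : Fin 13)}).Connected := by
  intro h
  have hr := h.preconnected ⟨4, by simp⟩ ⟨0, by simp⟩
  obtain ⟨p⟩ := hr
  have key : ∀ w : Fin 13, Gam.Adj 4 w → w = 3 := by decide
  cases p with
  | @cons _ v _ h1 _ => exact v.2 (key _ h1)

/-- **Disproof.** There is a connected self 2-distance graph (on 13 vertices) with a cut vertex:
deleting the vertex `3` disconnects it; in particular it is not 2-connected. So not every connected
self 2-distance graph with at least two vertices is 2-connected. -/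
theorem result :
    (∃ (G : SimpleGraph (Fin 13)) (v : Fin 13), G.Connected ∧ SelfTwoDist G ∧
      ¬ (G.induce {w | w ≠ v}).Connected) ∧
    ¬ (∀ (n : ℕ) (G : SimpleGraph (Fin n)), 2 ≤ n → G.Connected → SelfTwoDist G →
      TwoConnected G) := by
  refine ⟨⟨Gam, 3, conn, self, cut⟩, fun h => ?_⟩
  exact cut ((h 13 Gam (by norm_num) conn self).2 3)

end Pool.Agent.Results.MP_9880a5_co.CutVertexOnThirteenPoints
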